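import Pool.Agent.TH883.LS.LSB_E4Rb
import Pool.Agent.TH400.LS_E4
set_option autoImplicit false

/-! # Task LSB-E4R (project of helper280): the weighted inequality with weight `|η|^m`
(adapted from `TH400/LS_E4.lean`) -/

open MeasureTheory Set
open scoped ENNReal

namespace Pool.Agent.TH883.E4R

open Pool.Agent.TH280.LS
open Pool.Agent.TH400.E4 (Q Q_int sq_eq)

/-- the case of measurable functions -/
lemma e4_meas {C1 C2 : ℝ} (hC1 : 0 < C1) (hC2 : 0 < C2) (m : ℕ) (hm0 : 0 < m)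
    (hA : ∀ ζ : Fin m → ℝ, ∫⁻ η : Fin m → ℝ, w (-(3/4)) η * w (-(3/4)) (ζ - η) ≤
      ENNReal.ofReal (C1) * w (-(1/2)) ζ)
    (hB : ∀ ζ : Fin m → ℝ, ∫⁻ η : Fin m → ℝ, w (-(3/4)) η * w (-(1/2)) (ζ - η) ≤
      ENNReal.ofReal (C2) * w (-(1/4)) ζ)
    (H : (Fin m → ℝ) → ℂ) (hH : Integrable H) (hm : Measurable H) :
    ∫⁻ y : Fin m → ℝ, ‖∫ η : Fin m → ℝ, e (∑ i, y i * η i) * H η‖ₑ ^ 4 ≤
      ENNReal.ofReal ((C1 * C2)) *
        ∫⁻ η : Fin m → ℝ, ENNReal.ofReal ((nr η ^ m) ^ 2) * ‖H η‖ₑ ^ 4 := by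
  have hb := conv_bound hC1 hC2 m hm0 hA hB (fun η => ‖H η‖ₑ) hm.enorm
  have e0 : ∫⁻ η : Fin m → ℝ, w 2 η * ‖H η‖ₑ ^ 4 =
      ∫⁻ η : Fin m → ℝ, ENNReal.ofReal ((nr η ^ m) ^ 2) * ‖H η‖ₑ ^ 4 :=
    lintegral_congr fun η => by rw [w_two]
  rw [e0] at hb
  set R : ℝ≥0∞ := ENNReal.ofReal ((C1 * C2)) *
        ∫⁻ η : Fin m → ℝ, ENNReal.ofReal ((nr η ^ m) ^ 2) * ‖H η‖ₑ ^ 4 with hR
  by_cases hRt : R = ⊤
  · rw [hRt]; exact le_top
  have hQb : ∫⁻ ζ : Fin m → ℝ, ‖Q H ζ‖ₑ ^ 2 ≤ R := by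
    refine le_trans (lintegral_mono fun ζ => ?_) hb
    refine pow_le_pow_left' ?_ 2
    unfold Q
    refine (enorm_integral_le_lintegral_enorm _).trans (le_of_eq ?_)
    refine lintegral_congr fun η => ?_
    rw [enorm_mul]
  have hQ := Q_int hH
  have hQ2 : MemLp (Q H) 2 := by
    refine ⟨hQ.1, ?_⟩
    rw [eLpNorm_lt_top_iff_lintegral_rpow_enorm_lt_top (by norm_num) (by norm_num)]
    simp only [ENNReal.toReal_ofNat, ENNReal.rpow_ofNat]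
    exact hQb.trans_lt (lt_top_iff_ne_top.2 hRt)
  calc ∫⁻ y : Fin m → ℝ, ‖∫ η : Fin m → ℝ, e (∑ i, y i * η i) * H η‖ₑ ^ 4
      = ∫⁻ y : Fin m → ℝ, ‖∫ ζ : Fin m → ℝ, e (∑ i, y i * ζ i) * Q H ζ‖ₑ ^ 2 := by
        refine lintegral_congr fun y => ?_
        rw [← sq_eq hH y, enorm_pow, ← pow_mul]
    _ = ∫⁻ ζ : Fin m → ℝ, ‖Q H ζ‖ₑ ^ 2 := ftm_planch (Q H) hQ hQ2
    _ ≤ R := hQb

/-- the kernel estimate in coordinates -/
lemma kern_w {m : ℕ} (hm : 0 < m) {a b : ℝ} (ha : 0 < a) (ha1 : a < 1) (hb : 0 < b) (hb1 : b < 1)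
    (hab : 1 < a + b) : ∃ c : ℝ, 0 < c ∧ ∀ ζ : Fin m → ℝ,
      ∫⁻ η : Fin m → ℝ, w (-a) η * w (-b) (ζ - η) ≤ ENNReal.ofReal c * w (1 - a - b) ζ := by
  have hfr : Module.finrank ℝ (EuclideanSpace ℝ (Fin m)) = m := finrank_euclideanSpace_fin
  haveI : Nontrivial (EuclideanSpace ℝ (Fin m)) :=
    Module.nontrivial_of_finrank_pos (R := ℝ) (by rw [hfr]; exact hm)
  have hm' : (0 : ℝ) < m := by exact_mod_cast hm
  obtain ⟨c, hc, hk⟩ := kern (E := EuclideanSpace ℝ (Fin m)) volume (a := m * a) (b := m * b)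
    (by positivity) (by rw [hfr]; nlinarith) (by positivity) (by rw [hfr]; nlinarith)
    (by rw [hfr]; nlinarith)
  rw [hfr] at hk
  refine ⟨c, hc, fun ζ => ?_⟩
  have mp0 := EuclideanSpace.volume_preserving_symm_measurableEquiv_toLp (Fin m)
  set T : EuclideanSpace ℝ (Fin m) ≃ᵐ (Fin m → ℝ) :=
    (MeasurableEquiv.toLp 2 (Fin m → ℝ)).symm with hT
  have mp : MeasurePreserving T := mp0
  have hTi : ∀ (z : EuclideanSpace ℝ (Fin m)), (T z) = fun i => z i := fun z => rfl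
  have hw : ∀ (s : ℝ) (z : EuclideanSpace ℝ (Fin m)), w s (T z) = q z ^ (m * s) := by
    intro s z
    unfold w q
    rw [hTi, nr_toLp]
  have hζ : ζ = T (T.symm ζ) := (T.apply_symm_apply ζ).symm
  rw [← mp.lintegral_comp_emb T.measurableEmbedding]
  have e1 : ∀ z : EuclideanSpace ℝ (Fin m), w (-a) (T z) * w (-b) (ζ - T z) =
      q z ^ (-(m * a)) * q (T.symm ζ - z) ^ (-(m * b)) := by
    intro z
    have e2 : ζ - T z = T (T.symm ζ - z) := by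
      conv_lhs => rw [hζ]
      rfl
    rw [e2, hw, hw, mul_neg, mul_neg]
  rw [lintegral_congr e1]
  refine (hk (T.symm ζ)).trans (le_of_eq ?_)
  congr 1
  conv_rhs => rw [hζ]
  rw [hw]
  congr 1
  ring

theorem e4r_thm : S_E4R := by
  intro m hm0
  obtain ⟨C1, hC1, h1⟩ := kern_w hm0 (a := 3/4) (b := 3/4) (by norm_num) (by norm_num)
    (by norm_num) (by norm_num) (by norm_num)
  obtain ⟨C2, hC2, h2⟩ := kern_w hm0 (a := 3/4) (b := 1/2) (by norm_num) (by norm_num)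
    (by norm_num) (by norm_num) (by norm_num)
  refine ⟨C1 * C2, by positivity, fun H hH => ?_⟩
  have hA : ∀ ζ : Fin m → ℝ, ∫⁻ η : Fin m → ℝ, w (-(3/4)) η * w (-(3/4)) (ζ - η) ≤
      ENNReal.ofReal C1 * w (-(1/2)) ζ := by
    intro ζ
    have := h1 ζ
    rwa [show (1 - 3/4 - 3/4 : ℝ) = -(1/2) by norm_num] at this
  have hB : ∀ ζ : Fin m → ℝ, ∫⁻ η : Fin m → ℝ, w (-(3/4)) η * w (-(1/2)) (ζ - η) ≤
      ENNReal.ofReal C2 * w (-(1/4)) ζ := by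
    intro ζ
    have := h2 ζ
    rwa [show (1 - 3/4 - 1/2 : ℝ) = -(1/4) by norm_num] at this
  have hmk := hH.1.ae_eq_mk
  have hH' : Integrable (hH.1.mk H) := hH.congr hmk
  have key := e4_meas hC1 hC2 m hm0 hA hB _ hH' hH.1.stronglyMeasurable_mk.measurable
  have e1 : ∀ y : Fin m → ℝ, ∫ η : Fin m → ℝ, e (∑ i, y i * η i) * H η =
      ∫ η : Fin m → ℝ, e (∑ i, y i * η i) * (hH.1.mk H) η := by
    intro y
    refine integral_congr_ae ?_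
    filter_upwards [hmk] with η h
    rw [h]
  have e2 : ∫⁻ η : Fin m → ℝ, ENNReal.ofReal ((nr η ^ m) ^ 2) * ‖H η‖ₑ ^ 4 =
      ∫⁻ η : Fin m → ℝ, ENNReal.ofReal ((nr η ^ m) ^ 2) * ‖(hH.1.mk H) η‖ₑ ^ 4 := by
    refine lintegral_congr_ae ?_
    filter_upwards [hmk] with η h
    rw [h]
  rw [e2]
  simp_rw [e1]
  exact key

end Pool.Agent.TH883.E4R
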