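import Pool.Agent.TH883.LS.LSB_BALLa
set_option autoImplicit false

/-! # Task LSB-BALL (project of helper280): decay of the Fourier transform of balls -/

open MeasureTheory Set
open scoped ENNReal RealInnerProductSpace

namespace Pool.Agent.TH883.BALL

open Pool.Agent.TH280.LS

/-- coordinates -/
noncomputable def T (m : ℕ) : EuclideanSpace ℝ (Fin m) ≃ᵐ (Fin m → ℝ) :=
  (MeasurableEquiv.toLp 2 (Fin m → ℝ)).symm

lemma T_mp (m : ℕ) : MeasurePreserving (T m) :=
  EuclideanSpace.volume_preserving_symm_measurableEquiv_toLp (Fin m)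

lemma T_apply {m : ℕ} (z : EuclideanSpace ℝ (Fin m)) (i : Fin m) : T m z i = z i := rfl

lemma nr_T {m : ℕ} (z : EuclideanSpace ℝ (Fin m)) : nr (T m z) = ‖z‖ := by
  unfold nr
  rw [EuclideanSpace.norm_eq]
  simp [T_apply]

lemma nr_nonneg {m : ℕ} (η : Fin m → ℝ) : 0 ≤ nr η := Real.sqrt_nonneg _

lemma nr_meas {m : ℕ} : Measurable (nr (m := m)) := by
  unfold nr
  fun_prop

lemma ball_meas {m : ℕ} (R : ℝ) : MeasurableSet {y : Fin m → ℝ | nr y ≤ R} :=
  measurableSet_le nr_meas measurable_const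

lemma vol_eq {m : ℕ} (R : ℝ) : volume {y : Fin m → ℝ | nr y ≤ R} =
    volume (Metric.closedBall (0 : EuclideanSpace ℝ (Fin m)) R) := by
  rw [← (T_mp m).measure_preimage (ball_meas R).nullMeasurableSet]
  congr 1
  ext z
  simp [nr_T]

lemma vol_ball {m : ℕ} {r : ℝ} (hr : 0 ≤ r) : volume {y : Fin m → ℝ | nr y ≤ r} =
    ENNReal.ofReal (r ^ m) * volume {y : Fin m → ℝ | nr y ≤ 1} := by
  rw [vol_eq, vol_eq, Measure.addHaar_closedBall' _ _ hr, finrank_euclideanSpace_fin]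

lemma vol_fin {m : ℕ} (r : ℝ) : volume {y : Fin m → ℝ | nr y ≤ r} < ⊤ := by
  rw [vol_eq]; exact measure_closedBall_lt_top

/-- the transform of a ball -/
noncomputable def B (m : ℕ) (R : ℝ) (η : Fin m → ℝ) : ℂ :=
  ftm m ({y : Fin m → ℝ | nr y ≤ R}.indicator 1) η

lemma B_eq (m : ℕ) (R : ℝ) (η : Fin m → ℝ) : B m R η =
    ∫ z : EuclideanSpace ℝ (Fin m), e (-⟪z, (T m).symm η⟫) *
      (Metric.closedBall (0 : EuclideanSpace ℝ (Fin m)) R).indicator 1 z := by
  unfold B ftm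
  rw [← (T_mp m).integral_comp (T m).measurableEmbedding]
  refine integral_congr_ae (Filter.Eventually.of_forall fun z => ?_)
  simp only
  congr 1
  · congr 2
    rw [PiLp.inner_apply]
    refine Finset.sum_congr rfl fun i _ => ?_
    simp only [RCLike.inner_apply, conj_trivial]
    rw [mul_comm]
    rfl
  · by_cases h : z ∈ Metric.closedBall (0 : EuclideanSpace ℝ (Fin m)) R
    · have h2 : T m z ∈ {y : Fin m → ℝ | nr y ≤ R} := by
        simpa [nr_T] using h
      rw [indicator_of_mem h, indicator_of_mem h2]; rfl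
    · have h2 : T m z ∉ {y : Fin m → ℝ | nr y ≤ R} := by
        simpa [nr_T] using h
      rw [indicator_of_notMem h, indicator_of_notMem h2]

/-- rotation invariance -/
lemma B_rot {m : ℕ} (R : ℝ) (η θ : Fin m → ℝ) (h : nr η = nr θ) : B m R η = B m R θ := by
  rw [B_eq, B_eq]
  set v := (T m).symm η with hv
  set w := (T m).symm θ with hw
  have hvw : ‖v‖ = ‖w‖ := by
    rw [← nr_T, ← nr_T, hv, hw, (T m).apply_symm_apply, (T m).apply_symm_apply, h]
  set L := (ℝ ∙ (w - v))ᗮ.reflection with hL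
  have hLw : L w = v := Submodule.reflection_sub hvw.symm
  have mp : MeasurePreserving L := L.measurePreserving
  have hemb : MeasurableEmbedding L := L.toHomeomorph.measurableEmbedding
  rw [← mp.integral_comp hemb]
  refine integral_congr_ae (Filter.Eventually.of_forall fun z => ?_)
  simp only
  congr 1
  · rw [← hLw, L.inner_map_map]
  · by_cases h : z ∈ Metric.closedBall (0 : EuclideanSpace ℝ (Fin m)) R
    · have h2 : L z ∈ Metric.closedBall (0 : EuclideanSpace ℝ (Fin m)) R := by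
        simpa using h
      rw [indicator_of_mem h, indicator_of_mem h2]
      rfl
    · have h2 : L z ∉ Metric.closedBall (0 : EuclideanSpace ℝ (Fin m)) R := by
        simpa using h
      rw [indicator_of_notMem h, indicator_of_notMem h2]

/-- slices -/
lemma B_slice (n : ℕ) {R : ℝ} (hR : 0 ≤ R) (k : ℝ) : B (n + 1) R (Pi.single 0 k) =
    ((volume {y : Fin n → ℝ | nr y ≤ 1}).toReal : ℂ) *
      ∫ s in (-R)..R, e (-(s * k)) * (((Real.sqrt (R ^ 2 - s ^ 2)) ^ n : ℝ) : ℂ) := by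
  set ω := (volume {y : Fin n → ℝ | nr y ≤ 1}).toReal with hω
  unfold B ftm
  have hp := volume_preserving_piFinSuccAbove (fun _ : Fin (n + 1) => ℝ) 0
  set Φ := (MeasurableEquiv.piFinSuccAbove (fun _ : Fin (n + 1) => ℝ) 0) with hΦ
  have hΦ0 : ∀ (s : ℝ) (y : Fin n → ℝ), Φ.symm (s, y) 0 = s := fun s y => rfl
  have hΦs : ∀ (s : ℝ) (y : Fin n → ℝ) (i : Fin n), Φ.symm (s, y) i.succ = y i := fun s y i => rfl
  have hnr : ∀ (s : ℝ) (y : Fin n → ℝ), nr (Φ.symm (s, y)) ≤ R ↔ s ^ 2 + nr y ^ 2 ≤ R ^ 2 := by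
    intro s y
    have h1 : nr (Φ.symm (s, y)) ^ 2 = s ^ 2 + nr y ^ 2 := by
      unfold nr
      rw [Real.sq_sqrt (Finset.sum_nonneg fun i _ => sq_nonneg _),
        Real.sq_sqrt (Finset.sum_nonneg fun i _ => sq_nonneg _), Fin.sum_univ_succ, hΦ0]
      simp only [hΦs]
    rw [← h1]
    exact (pow_le_pow_iff_left₀ (nr_nonneg _) hR (by norm_num)).symm
  have hint : Integrable (fun y : Fin (n + 1) → ℝ =>
      e (-(∑ i, y i * (Pi.single (M := fun _ => ℝ) 0 k : Fin (n + 1) → ℝ) i)) *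
        {y : Fin (n + 1) → ℝ | nr y ≤ R}.indicator (1 : (Fin (n + 1) → ℝ) → ℂ) y) := by
    have h1 : Integrable ({y : Fin (n + 1) → ℝ | nr y ≤ R}.indicator
        (1 : (Fin (n + 1) → ℝ) → ℂ)) := by
      rw [integrable_indicator_iff (ball_meas R)]
      exact integrableOn_const (vol_fin R).ne
    refine h1.bdd_mul (c := 1) (Continuous.aestronglyMeasurable ?_) ?_
    · exact continuous_e.comp (by fun_prop)
    · exact Filter.Eventually.of_forall fun a => (norm_e _).le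
  rw [← hp.symm.integral_comp Φ.symm.measurableEmbedding, Measure.volume_eq_prod,
    integral_prod]
  swap
  · exact (hp.symm.integrable_comp_emb Φ.symm.measurableEmbedding).2 hint
  have hsum : ∀ (s : ℝ) (y : Fin n → ℝ),
      (∑ i, Φ.symm (s, y) i * (Pi.single (M := fun _ => ℝ) 0 k : Fin (n + 1) → ℝ) i) = s * k := by
    intro s y
    rw [Fin.sum_univ_succ, hΦ0]
    simp
  have hin : ∀ s : ℝ, ∫ y : Fin n → ℝ,
      e (-(∑ i, Φ.symm (s, y) i * (Pi.single (M := fun _ => ℝ) 0 k : Fin (n + 1) → ℝ) i)) *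
        {y : Fin (n + 1) → ℝ | nr y ≤ R}.indicator (1 : (Fin (n + 1) → ℝ) → ℂ) (Φ.symm (s, y)) =
      (Icc (-R) R).indicator (fun s => (ω : ℂ) * (e (-(s * k)) *
        (((Real.sqrt (R ^ 2 - s ^ 2)) ^ n : ℝ) : ℂ))) s := by
    intro s
    simp only [hsum]
    rw [integral_const_mul]
    by_cases hs : s ∈ Icc (-R) R
    · rw [indicator_of_mem hs]
      have hs2 : 0 ≤ R ^ 2 - s ^ 2 := by
        have := abs_le.2 ⟨hs.1, hs.2⟩
        have h2 := sq_abs s
        nlinarith [abs_nonneg s]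
      have h1 : ∀ y : Fin n → ℝ, {y : Fin (n + 1) → ℝ | nr y ≤ R}.indicator
          (1 : (Fin (n + 1) → ℝ) → ℂ) (Φ.symm (s, y)) =
          {y : Fin n → ℝ | nr y ≤ Real.sqrt (R ^ 2 - s ^ 2)}.indicator (fun _ => (1 : ℂ)) y := by
        intro y
        have h3 : (Φ.symm (s, y) ∈ {y : Fin (n + 1) → ℝ | nr y ≤ R}) ↔
            (y ∈ {y : Fin n → ℝ | nr y ≤ Real.sqrt (R ^ 2 - s ^ 2)}) := by
          rw [mem_ofPred_eq, mem_ofPred_eq, hnr, Real.le_sqrt (nr_nonneg y) hs2]
          constructor <;> intro h <;> linarith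
        by_cases h : Φ.symm (s, y) ∈ {y : Fin (n + 1) → ℝ | nr y ≤ R}
        · rw [indicator_of_mem h, indicator_of_mem (h3.1 h)]; rfl
        · rw [indicator_of_notMem h, indicator_of_notMem (fun h' => h (h3.2 h'))]
      rw [integral_congr_ae (Filter.Eventually.of_forall h1), integral_indicator (ball_meas _)]
      simp only [integral_const, MeasurableSet.univ, measureReal_restrict_apply, univ_inter]
      rw [Measure.real, vol_ball (Real.sqrt_nonneg _), ENNReal.toReal_mul,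
        ENNReal.toReal_ofReal (by positivity), ← hω, Complex.real_smul]
      push_cast
      ring
    · rw [indicator_of_notMem hs]
      have h1 : ∀ y : Fin n → ℝ, {y : Fin (n + 1) → ℝ | nr y ≤ R}.indicator
          (1 : (Fin (n + 1) → ℝ) → ℂ) (Φ.symm (s, y)) = 0 := by
        intro y
        refine indicator_of_notMem ?_ _
        rw [mem_ofPred_eq, hnr]
        intro h
        apply hs
        have : s ^ 2 ≤ R ^ 2 := by nlinarith [sq_nonneg (nr y)]
        exact abs_le.1 (abs_le_of_sq_le_sq this hR)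
      rw [integral_congr_ae (Filter.Eventually.of_forall h1)]
      simp
  rw [integral_congr_ae (Filter.Eventually.of_forall hin), integral_indicator measurableSet_Icc,
    integral_Icc_eq_integral_Ioc, ← intervalIntegral.integral_of_le (by linarith),
    intervalIntegral.integral_const_mul]

theorem ball_thm : S_BALL := by
  intro m hm
  obtain ⟨n, rfl⟩ : ∃ n, m = n + 1 := ⟨m - 1, by omega⟩
  obtain ⟨C, hC, hosc⟩ := osc (α := (n : ℝ) / 2) (by positivity)
  set ω := (volume {y : Fin n → ℝ | nr y ≤ 1}).toReal with hω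
  have hω0 : 0 ≤ ω := ENNReal.toReal_nonneg
  refine ⟨(ω + 1) * C, by positivity, fun R η hR => ?_⟩
  have hnr : nr η = nr (Pi.single (M := fun _ => ℝ) (0 : Fin (n + 1)) (nr η)) := by
    have h1 : nr (Pi.single (M := fun _ => ℝ) (0 : Fin (n + 1)) (nr η)) =
        Real.sqrt ((nr η) ^ 2) := by
      change Real.sqrt (∑ i, (Pi.single (M := fun _ => ℝ) (0 : Fin (n + 1)) (nr η) :
        Fin (n + 1) → ℝ) i ^ 2) = _
      congr 1
      rw [Fin.sum_univ_succ]
      simp
    rw [h1, Real.sqrt_sq (nr_nonneg η)]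
  change ‖B (n + 1) R η‖ ≤ _
  rw [B_rot R _ _ hnr, B_slice n hR, ← hω, norm_mul, Complex.norm_real, Real.norm_of_nonneg hω0]
  rcases hR.eq_or_lt with hR0 | hR0
  · rw [← hR0]
    simp
  have hscale : ∫ s in (-R)..R, e (-(s * nr η)) * (((Real.sqrt (R ^ 2 - s ^ 2)) ^ n : ℝ) : ℂ) =
      ((R ^ (n + 1) : ℝ) : ℂ) * ∫ u in (-1 : ℝ)..1, e (-(u * (R * nr η))) *
        (((1 - u ^ 2) ^ ((n : ℝ) / 2) : ℝ) : ℂ) := by
    have h1 := intervalIntegral.integral_comp_mul_left (a := -1) (b := 1)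
      (fun s : ℝ => e (-(s * nr η)) * (((Real.sqrt (R ^ 2 - s ^ 2)) ^ n : ℝ) : ℂ)) hR0.ne'
    rw [mul_neg, mul_one] at h1
    have h2 : ∫ s in (-R)..R, e (-(s * nr η)) * (((Real.sqrt (R ^ 2 - s ^ 2)) ^ n : ℝ) : ℂ) =
        (R : ℂ) * ∫ u in (-1 : ℝ)..1, e (-(R * u * nr η)) *
          (((Real.sqrt (R ^ 2 - (R * u) ^ 2)) ^ n : ℝ) : ℂ) := by
      rw [h1, Complex.real_smul, Complex.ofReal_inv, ← mul_assoc,
        mul_inv_cancel₀ (by exact_mod_cast hR0.ne'), one_mul]
    rw [h2, show ((R ^ (n + 1) : ℝ) : ℂ) = (R : ℂ) * ((R ^ n : ℝ) : ℂ) by push_cast; ring,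
      mul_assoc]
    congr 1
    rw [← intervalIntegral.integral_const_mul]
    refine intervalIntegral.integral_congr fun u hu => ?_
    rw [uIcc_of_le (by norm_num)] at hu
    have hu2 : 0 ≤ 1 - u ^ 2 := by
      have := abs_le.2 ⟨hu.1, hu.2⟩
      have h2 := sq_abs u
      nlinarith [abs_nonneg u]
    have h3 : Real.sqrt (R ^ 2 - (R * u) ^ 2) = R * Real.sqrt (1 - u ^ 2) := by
      rw [show R ^ 2 - (R * u) ^ 2 = R ^ 2 * (1 - u ^ 2) by ring,
        Real.sqrt_mul (by positivity), Real.sqrt_sq hR0.le]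
    have h4 : Real.sqrt (1 - u ^ 2) ^ n = (1 - u ^ 2) ^ ((n : ℝ) / 2) := by
      rw [Real.sqrt_eq_rpow, ← Real.rpow_natCast, ← Real.rpow_mul hu2]
      congr 1; ring
    rw [h3, mul_pow, h4, show R * u * nr η = u * (R * nr η) by ring]
    push_cast
    ring
  rw [hscale, norm_mul, Complex.norm_real, Real.norm_of_nonneg (by positivity)]
  have hκ : 0 ≤ R * nr η := mul_nonneg hR0.le (nr_nonneg η)
  have h5 := hosc (R * nr η) hκ
  have h6 : -((n : ℝ) / 2 + 1) = -((((n + 1 : ℕ) : ℝ) + 1) / 2) := by push_cast; ring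
  rw [h6] at h5
  have h7 : 0 ≤ (1 + R * nr η) ^ (-((((n + 1 : ℕ) : ℝ) + 1) / 2)) := by positivity
  calc ω * (R ^ (n + 1) * ‖∫ u in (-1 : ℝ)..1, e (-(u * (R * nr η))) *
        (((1 - u ^ 2) ^ ((n : ℝ) / 2) : ℝ) : ℂ)‖)
      ≤ ω * (R ^ (n + 1) * (C * (1 + R * nr η) ^ (-((((n + 1 : ℕ) : ℝ) + 1) / 2)))) := by
        gcongr
    _ ≤ (ω + 1) * (R ^ (n + 1) * (C * (1 + R * nr η) ^ (-((((n + 1 : ℕ) : ℝ) + 1) / 2)))) := by
        refine mul_le_mul_of_nonneg_right (by linarith) (by positivity)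
    _ = _ := by ring

end Pool.Agent.TH883.BALL
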