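import Pool.Agent.TH280.LS.StmB
set_option autoImplicit false

/-! # Task LSB-BALL (project of helper280), part 1: an oscillatory integral -/

open MeasureTheory Set Complex
open scoped ENNReal

namespace Pool.Agent.TH883.BALL

/-- powers are bounded by the exponential -/
lemma rpow_le_exp {α u : ℝ} (hα : 0 ≤ α) (hu : 0 ≤ u) :
    u ^ α ≤ (α + 1) ^ α * Real.exp u := by
  have h1 : 0 < α + 1 := by linarith
  have h2 : u / (α + 1) ≤ Real.exp (u / (α + 1)) := by
    have := Real.add_one_le_exp (u / (α + 1))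
    linarith
  have h3 : (u / (α + 1)) ^ α ≤ Real.exp u := by
    calc (u / (α + 1)) ^ α ≤ (Real.exp (u / (α + 1))) ^ α :=
          Real.rpow_le_rpow (by positivity) h2 hα
      _ = Real.exp (u / (α + 1) * α) := by rw [← Real.exp_mul]
      _ ≤ Real.exp u := by
          apply Real.exp_le_exp.2
          rw [div_mul_eq_mul_div, div_le_iff₀ h1]
          nlinarith
  have h4 : u ^ α = (α + 1) ^ α * (u / (α + 1)) ^ α := by
    rw [← Real.mul_rpow h1.le (by positivity), mul_div_cancel₀ _ h1.ne']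
  rw [h4]
  exact mul_le_mul_of_nonneg_left h3 (by positivity)

/-- the integrand -/
noncomputable def F (α κ : ℝ) (z : ℂ) : ℂ :=
  Complex.exp (-(2 * Real.pi * κ) * I * z) * (1 - z ^ 2) ^ (α : ℂ)

lemma norm_F (α κ : ℝ) (x y : ℝ) :
    ‖F α κ (x + y * I)‖ = Real.exp (2 * Real.pi * κ * y) * ‖1 - ((x : ℂ) + y * I) ^ 2‖ ^ α := by
  unfold F
  rw [norm_mul, Complex.norm_exp, Complex.norm_cpow_real]
  congr 2
  simp

lemma re_pos {x y : ℝ} (hx1 : -1 ≤ x) (hx2 : x ≤ 1) :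
    0 ≤ (1 - ((x : ℂ) + y * I) ^ 2).re ∧
      ((1 - ((x : ℂ) + y * I) ^ 2).re = 0 → (1 - ((x : ℂ) + y * I) ^ 2) = 0) := by
  have h1 : (1 - ((x : ℂ) + y * I) ^ 2).re = 1 - x ^ 2 + y ^ 2 := by
    simp [sq]
    ring
  have h2 : (1 - ((x : ℂ) + y * I) ^ 2).im = - (2 * x * y) := by
    simp [sq]
    ring
  have hx : x ^ 2 ≤ 1 := by nlinarith
  refine ⟨by rw [h1]; nlinarith [sq_nonneg y], fun h0 => ?_⟩
  rw [h1] at h0
  have hy : y = 0 := by nlinarith [sq_nonneg y]
  apply Complex.ext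
  · rw [h1]; simpa using h0
  · rw [h2, hy]; simp

lemma cont_F {α κ : ℝ} (hα : 0 ≤ α) {z : ℂ} (h1 : -1 ≤ z.re) (h2 : z.re ≤ 1) :
    ContinuousAt (F α κ) z := by
  unfold F
  refine ContinuousAt.mul (by fun_prop) ?_
  rcases hα.eq_or_lt with hα0 | hα0
  · rw [← hα0]
    simp only [ofReal_zero, cpow_zero]
    exact continuousAt_const
  have hz : z = (z.re : ℂ) + z.im * I := (Complex.re_add_im z).symm
  have h3 := re_pos (y := z.im) h1 h2
  rw [← hz] at h3
  have hg : ContinuousAt (fun z : ℂ => 1 - z ^ 2) z := by fun_prop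
  by_cases h0 : (1 - z ^ 2) = 0
  · have := Complex.continuousAt_cpow_zero_of_re_pos (z := (α : ℂ)) (by simpa using hα0)
    rw [← h0] at this
    exact ContinuousAt.comp (f := fun z : ℂ => (1 - z ^ 2, (α : ℂ)))
      (g := fun p : ℂ × ℂ => p.1 ^ p.2) this (hg.prodMk continuousAt_const)
  · have hsl : (1 - z ^ 2) ∈ slitPlane := by
      left
      exact lt_of_le_of_ne h3.1 (fun h => h0 (h3.2 h.symm))
    exact hg.cpow continuousAt_const hsl

lemma diff_F {α κ : ℝ} {z : ℂ} (h1 : -1 < z.re) (h2 : z.re < 1) :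
    DifferentiableAt ℂ (F α κ) z := by
  unfold F
  refine DifferentiableAt.mul (by fun_prop) ?_
  have hz : z = (z.re : ℂ) + z.im * I := (Complex.re_add_im z).symm
  have h3 : (1 - z ^ 2).re = 1 - z.re ^ 2 + z.im ^ 2 := by
    simp [sq]
    ring
  have hsl : (1 - z ^ 2) ∈ slitPlane := by
    left
    rw [h3]
    nlinarith [sq_nonneg z.im]
  exact DifferentiableAt.cpow (by fun_prop) (by fun_prop) hsl

/-- the bound on the vertical sides -/
lemma side {α κ : ℝ} (hα : 0 ≤ α) (hκ : 1 ≤ κ) {x y : ℝ} (hx : x = 1 ∨ x = -1) (hy : y ≤ 0) :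
    ‖F α κ (x + y * I)‖ ≤
      ((α + 1) ^ α * ((α + 1) ^ α * Real.exp 2)) * κ ^ (-α) * Real.exp (κ * y) := by
  rw [norm_F]
  set t := -y with ht
  have ht0 : 0 ≤ t := by linarith
  have hyt : y = -t := by ring
  have hx2 : x ^ 2 = 1 := by rcases hx with h | h <;> rw [h] <;> norm_num
  have hxa : |x| = 1 := by rcases hx with h | h <;> rw [h] <;> norm_num
  have h1 : ‖1 - ((x : ℂ) + y * I) ^ 2‖ ≤ t * (t + 2) := by
    have e1 : (1 - ((x : ℂ) + y * I) ^ 2) = ((t : ℂ)) * (((t : ℂ)) + 2 * x * I) := by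
      have hx2' : (x : ℂ) ^ 2 = 1 := by exact_mod_cast hx2
      have hI : I ^ 2 = -1 := Complex.I_sq
      rw [hyt]
      push_cast
      linear_combination (-1 : ℂ) * hx2' - (t : ℂ) ^ 2 * hI
    rw [e1, norm_mul, Complex.norm_real, Real.norm_of_nonneg ht0]
    refine mul_le_mul_of_nonneg_left ?_ ht0
    refine (norm_add_le _ _).trans ?_
    rw [Complex.norm_real, Real.norm_of_nonneg ht0]
    simp [hxa]
  have h2 : ‖1 - ((x : ℂ) + y * I) ^ 2‖ ^ α ≤ (t * (t + 2)) ^ α :=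
    Real.rpow_le_rpow (norm_nonneg _) h1 hα
  have hκ0 : 0 < κ := by linarith
  have h3 : (t * (t + 2)) ^ α = κ ^ (-α) * ((κ * t) ^ α * (t + 2) ^ α) := by
    rw [Real.mul_rpow hκ0.le ht0, Real.mul_rpow ht0 (by linarith), Real.rpow_neg hκ0.le]
    have : κ ^ α ≠ 0 := (Real.rpow_pos_of_pos hκ0 _).ne'
    field_simp
  have h4 := rpow_le_exp hα (show 0 ≤ κ * t by positivity)
  have h5 : (t + 2) ^ α ≤ (α + 1) ^ α * (Real.exp 2 * Real.exp (κ * t)) := by
    refine (rpow_le_exp hα (show 0 ≤ t + 2 by positivity)).trans ?_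
    refine mul_le_mul_of_nonneg_left ?_ (by positivity)
    rw [← Real.exp_add]
    apply Real.exp_le_exp.2
    nlinarith
  have hA : 0 ≤ (α + 1) ^ α := by positivity
  have h6 : (κ * t) ^ α * (t + 2) ^ α ≤ ((α + 1) ^ α * Real.exp (κ * t)) *
      ((α + 1) ^ α * (Real.exp 2 * Real.exp (κ * t))) :=
    mul_le_mul h4 h5 (by positivity) (by positivity)
  calc Real.exp (2 * Real.pi * κ * y) * ‖1 - ((x : ℂ) + y * I) ^ 2‖ ^ α
      ≤ Real.exp (2 * Real.pi * κ * y) * (κ ^ (-α) * (((α + 1) ^ α * Real.exp (κ * t)) *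
      ((α + 1) ^ α * (Real.exp 2 * Real.exp (κ * t))))) := by
        refine mul_le_mul_of_nonneg_left ?_ (Real.exp_pos _).le
        refine h2.trans ?_
        rw [h3]
        exact mul_le_mul_of_nonneg_left h6 (by positivity)
    _ = ((α + 1) ^ α * ((α + 1) ^ α * Real.exp 2)) * κ ^ (-α) *
        (Real.exp (2 * Real.pi * κ * y) * (Real.exp (κ * t) * Real.exp (κ * t))) := by ring
    _ ≤ ((α + 1) ^ α * ((α + 1) ^ α * Real.exp 2)) * κ ^ (-α) * Real.exp (κ * y) := by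
        refine mul_le_mul_of_nonneg_left ?_ (by positivity)
        rw [← Real.exp_add, ← Real.exp_add]
        apply Real.exp_le_exp.2
        rw [hyt]
        have hpi := Real.pi_gt_three
        have : 0 ≤ κ * t := by positivity
        nlinarith

/-- the bound on the lower side -/
lemma low {α κ : ℝ} (hα : 0 ≤ α) (hκ : 1 ≤ κ) {x T : ℝ} (hx1 : -1 ≤ x) (hx2 : x ≤ 1)
    (hT : 0 ≤ T) :
    ‖F α κ (x + ((-T : ℝ) : ℂ) * I)‖ ≤
      ((α + 1) ^ α * Real.exp 2) ^ 2 * Real.exp (-T) := by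
  rw [norm_F]
  have hxa : |x| ≤ 1 := abs_le.2 ⟨hx1, hx2⟩
  have h1 : ‖1 - ((x : ℂ) + ((-T : ℝ) : ℂ) * I) ^ 2‖ ≤ (T + 2) ^ 2 := by
    refine (norm_sub_le _ _).trans ?_
    rw [norm_pow, norm_one]
    have h2 : ‖(x : ℂ) + ((-T : ℝ) : ℂ) * I‖ ≤ 1 + T := by
      refine (norm_add_le _ _).trans ?_
      rw [norm_mul, Complex.norm_real, Complex.norm_real, Complex.norm_I, mul_one,
        Real.norm_eq_abs, Real.norm_eq_abs, abs_neg, abs_of_nonneg hT]
      linarith
    have h3 : ‖(x : ℂ) + ((-T : ℝ) : ℂ) * I‖ ^ 2 ≤ (1 + T) ^ 2 :=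
      pow_le_pow_left₀ (norm_nonneg _) h2 2
    nlinarith
  have h2 : ‖1 - ((x : ℂ) + ((-T : ℝ) : ℂ) * I) ^ 2‖ ^ α ≤ ((α + 1) ^ α * Real.exp (T + 2)) ^ 2 := by
    calc ‖1 - ((x : ℂ) + ((-T : ℝ) : ℂ) * I) ^ 2‖ ^ α ≤ ((T + 2) ^ 2) ^ α :=
          Real.rpow_le_rpow (norm_nonneg _) h1 hα
      _ = ((T + 2) ^ α) ^ 2 := by
          rw [← Real.rpow_natCast, ← Real.rpow_natCast, ← Real.rpow_mul (by linarith),
            ← Real.rpow_mul (by linarith)]
          congr 1; ring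
      _ ≤ ((α + 1) ^ α * Real.exp (T + 2)) ^ 2 :=
          pow_le_pow_left₀ (by positivity) (rpow_le_exp hα (by linarith)) 2
  calc Real.exp (2 * Real.pi * κ * -T) * ‖1 - ((x : ℂ) + ((-T : ℝ) : ℂ) * I) ^ 2‖ ^ α
      ≤ Real.exp (2 * Real.pi * κ * -T) * ((α + 1) ^ α * Real.exp (T + 2)) ^ 2 :=
        mul_le_mul_of_nonneg_left h2 (Real.exp_pos _).le
    _ = ((α + 1) ^ α * Real.exp 2) ^ 2 * (Real.exp (2 * Real.pi * κ * -T) *
        (Real.exp T * Real.exp T)) := by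
        rw [Real.exp_add]; ring
    _ ≤ ((α + 1) ^ α * Real.exp 2) ^ 2 * Real.exp (-T) := by
        refine mul_le_mul_of_nonneg_left ?_ (by positivity)
        rw [← Real.exp_add, ← Real.exp_add]
        apply Real.exp_le_exp.2
        have hpi := Real.pi_gt_three
        have h4 : T ≤ κ * T := by nlinarith
        nlinarith

/-- the oscillatory integral -/
lemma osc_F {α : ℝ} (hα : 0 ≤ α) {κ : ℝ} (hκ : 1 ≤ κ) :
    ‖∫ x in (-1 : ℝ)..1, F α κ x‖ ≤
      2 * ((α + 1) ^ α * ((α + 1) ^ α * Real.exp 2)) * κ ^ (-(α + 1)) := by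
  have hκ0 : 0 < κ := by linarith
  set A := ((α + 1) ^ α * ((α + 1) ^ α * Real.exp 2)) with hA
  have hA0 : 0 ≤ A := by positivity
  set B := ((α + 1) ^ α * Real.exp 2) ^ 2 with hB
  have hT : ∀ T : ℝ, 0 ≤ T → ‖∫ x in (-1 : ℝ)..1, F α κ x‖ ≤
      B * Real.exp (-T) * 2 + 2 * (A * κ ^ (-(α + 1))) := by
    intro T hT
    have hrect := Complex.integral_boundary_rect_eq_zero_of_continuousOn_of_differentiableOn
      (F α κ) (((-1 : ℝ) : ℂ) + ((-T : ℝ) : ℂ) * I) (((1 : ℝ) : ℂ) + ((0 : ℝ) : ℂ) * I) ?_ ?_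
    rotate_left
    · intro z hz
      have h1 := hz.1
      simp only [mem_preimage, add_re, ofReal_re, mul_re, I_re, mul_zero, ofReal_im, I_im,
        mul_one, sub_self, add_zero] at h1
      rw [uIcc_of_le (by norm_num)] at h1
      exact (cont_F hα h1.1 h1.2).continuousWithinAt
    · intro z hz
      have h1 := hz.1
      simp only [mem_preimage, add_re, ofReal_re, mul_re, I_re, mul_zero, ofReal_im, I_im,
        mul_one, sub_self, add_zero] at h1
      rw [min_eq_left (by norm_num), max_eq_right (by norm_num)] at h1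
      exact (diff_F h1.1 h1.2).differentiableWithinAt
    simp only [add_re, ofReal_re, mul_re, I_re, mul_zero, ofReal_im, I_im, mul_one, sub_self,
      add_zero, add_im, mul_im, zero_add] at hrect
    have hJ : (∫ x in (-1 : ℝ)..1, F α κ (x + ((0 : ℝ) : ℂ) * I)) = ∫ x in (-1 : ℝ)..1, F α κ x := by
      refine intervalIntegral.integral_congr fun x _ => ?_
      simp
    rw [hJ] at hrect
    have hside : ∀ x : ℝ, (x = 1 ∨ x = -1) →
        ‖∫ y in (-T : ℝ)..0, F α κ ((x : ℂ) + y * I)‖ ≤ A * κ ^ (-(α + 1)) := by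
      intro x hx
      have h1 : ‖∫ y in (-T : ℝ)..0, F α κ ((x : ℂ) + y * I)‖ ≤
          ∫ y in (-T : ℝ)..0, A * κ ^ (-α) * Real.exp (κ * y) := by
        refine intervalIntegral.norm_integral_le_of_norm_le (by linarith) ?_ ?_
        · refine Filter.Eventually.of_forall fun y hy => ?_
          exact side hα hκ hx hy.2
        · exact (Continuous.intervalIntegrable (by fun_prop) _ _)
      refine h1.trans ?_
      rw [intervalIntegral.integral_const_mul]
      have h2 : ∫ y in (-T : ℝ)..0, Real.exp (κ * y) = κ⁻¹ * (1 - Real.exp (κ * -T)) := by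
        rw [intervalIntegral.integral_comp_mul_left (fun y => Real.exp y) hκ0.ne', integral_exp]
        simp
      have h3 : κ ^ (-(α + 1)) = κ ^ (-α) * κ⁻¹ := by
        rw [neg_add, Real.rpow_add hκ0, Real.rpow_neg_one]
      rw [h2, h3, ← mul_assoc]
      have h4 : 0 < Real.exp (κ * -T) := Real.exp_pos _
      have h5 : 0 ≤ A * κ ^ (-α) * κ⁻¹ := by positivity
      nlinarith
    have hlow : ‖∫ x in (-1 : ℝ)..1, F α κ (x + ((-T : ℝ) : ℂ) * I)‖ ≤ B * Real.exp (-T) * 2 := by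
      have := intervalIntegral.norm_integral_le_of_norm_le_const (a := -1) (b := 1)
        (f := fun x : ℝ => F α κ (x + ((-T : ℝ) : ℂ) * I)) (C := B * Real.exp (-T)) ?_
      · refine this.trans (le_of_eq ?_)
        norm_num
      · intro x hx
        rw [uIoc_of_le (by norm_num)] at hx
        exact low hα hκ hx.1.le hx.2 hT
    have hs1 := hside 1 (Or.inl rfl)
    have hs2 := hside (-1) (Or.inr rfl)
    have e : ∫ x in (-1 : ℝ)..1, F α κ x = (∫ x in (-1 : ℝ)..1, F α κ (x + ((-T : ℝ) : ℂ) * I)) +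
        (I • (∫ y in (-T : ℝ)..0, F α κ (((1 : ℝ) : ℂ) + y * I)) -
        I • ∫ y in (-T : ℝ)..0, F α κ (((-1 : ℝ) : ℂ) + y * I)) := by
      linear_combination (-1 : ℂ) * hrect
    rw [e]
    refine (norm_add_le _ _).trans (add_le_add hlow ?_)
    refine (norm_sub_le _ _).trans ?_
    rw [norm_smul, norm_smul, Complex.norm_I, one_mul, one_mul]
    linarith
  have hlim : Filter.Tendsto (fun T : ℝ => B * Real.exp (-T) * 2 + 2 * (A * κ ^ (-(α + 1))))
      Filter.atTop (nhds (B * 0 * 2 + 2 * (A * κ ^ (-(α + 1))))) :=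
    ((Real.tendsto_exp_neg_atTop_nhds_zero.const_mul B).mul_const 2).add tendsto_const_nhds
  have := ge_of_tendsto hlim (Filter.eventually_ge_atTop 0 |>.mono fun T h => hT T h)
  refine this.trans (le_of_eq ?_)
  ring

open Pool.Agent.TH280.LS in
/-- the oscillatory integral, real form -/
lemma osc {α : ℝ} (hα : 0 ≤ α) : ∃ C : ℝ, 0 < C ∧ ∀ κ : ℝ, 0 ≤ κ →
    ‖∫ x in (-1 : ℝ)..1, e (-(x * κ)) * (((1 - x ^ 2) ^ α : ℝ) : ℂ)‖ ≤
      C * (1 + κ) ^ (-(α + 1)) := by
  set A := 2 * ((α + 1) ^ α * ((α + 1) ^ α * Real.exp 2)) with hA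
  have hA0 : 0 < A := by positivity
  refine ⟨(A + 2) * 2 ^ (α + 1), by positivity, fun κ hκ0 => ?_⟩
  have hb : ∀ x ∈ Icc (-1 : ℝ) 1, 0 ≤ 1 - x ^ 2 := by
    intro x hx
    have := abs_le.2 ⟨hx.1, hx.2⟩
    have := sq_abs x
    nlinarith [abs_nonneg x]
  rcases le_or_gt 1 κ with hκ | hκ
  · have e1 : ∫ x in (-1 : ℝ)..1, e (-(x * κ)) * (((1 - x ^ 2) ^ α : ℝ) : ℂ) =
        ∫ x in (-1 : ℝ)..1, F α κ x := by
      refine intervalIntegral.integral_congr fun x hx => ?_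
      rw [uIcc_of_le (by norm_num)] at hx
      unfold F e
      rw [Complex.ofReal_cpow (hb x hx)]
      push_cast
      congr 2
      ring
    rw [e1]
    refine (osc_F hα hκ).trans ?_
    rw [← hA]
    have h2 : κ ^ (-(α + 1)) ≤ 2 ^ (α + 1) * (1 + κ) ^ (-(α + 1)) := by
      have h3 : κ ^ (-(α + 1)) = 2 ^ (α + 1) * (2 * κ) ^ (-(α + 1)) := by
        rw [Real.mul_rpow (by norm_num) hκ0, Real.rpow_neg (by norm_num : (0:ℝ) ≤ 2), ← mul_assoc,
          mul_inv_cancel₀ (by positivity), one_mul]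
      rw [h3]
      refine mul_le_mul_of_nonneg_left ?_ (by positivity)
      exact Real.rpow_le_rpow_of_nonpos (by linarith) (by linarith) (by linarith)
    calc A * κ ^ (-(α + 1)) ≤ A * (2 ^ (α + 1) * (1 + κ) ^ (-(α + 1))) :=
          mul_le_mul_of_nonneg_left h2 hA0.le
      _ ≤ (A + 2) * (2 ^ (α + 1) * (1 + κ) ^ (-(α + 1))) :=
          mul_le_mul_of_nonneg_right (by linarith) (by positivity)
      _ = _ := by ring
  · have h1 := intervalIntegral.norm_integral_le_of_norm_le_const (a := -1) (b := 1)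
      (f := fun x : ℝ => e (-(x * κ)) * (((1 - x ^ 2) ^ α : ℝ) : ℂ)) (C := 1) ?_
    · refine h1.trans ?_
      have h2 : (2 : ℝ) ^ (-(α + 1)) ≤ (1 + κ) ^ (-(α + 1)) :=
        Real.rpow_le_rpow_of_nonpos (by linarith) (by linarith) (by linarith)
      have h3 : (2 : ℝ) ^ (α + 1) * 2 ^ (-(α + 1)) = 1 := by
        rw [← Real.rpow_add (by norm_num), add_neg_cancel, Real.rpow_zero]
      have h4 : (1 : ℝ) ≤ 2 ^ (α + 1) * (1 + κ) ^ (-(α + 1)) := by
        calc (1 : ℝ) = 2 ^ (α + 1) * 2 ^ (-(α + 1)) := h3.symm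
          _ ≤ _ := mul_le_mul_of_nonneg_left h2 (by positivity)
      have h5 : (1 : ℝ) * |1 - (-1)| = 2 := by norm_num
      rw [h5, mul_assoc]
      nlinarith
    · intro x hx
      rw [uIoc_of_le (by norm_num)] at hx
      have hx' : x ∈ Icc (-1 : ℝ) 1 := ⟨hx.1.le, hx.2⟩
      rw [norm_mul, norm_e, one_mul, Complex.norm_real,
        Real.norm_of_nonneg (Real.rpow_nonneg (hb x hx') _)]
      exact Real.rpow_le_one (hb x hx') (by nlinarith [sq_nonneg x]) hα

end Pool.Agent.TH883.BALL
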