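import Pool.Agent.TH280.LS.StmB
set_option autoImplicit false

/-! # Task LSB-E4R (project of helper280), part 1: isotropic kernels -/

open MeasureTheory Set
open scoped ENNReal

namespace Pool.Agent.TH883.E4R

section kernel

variable {E : Type*} [NormedAddCommGroup E] [NormedSpace ℝ E] [FiniteDimensional ℝ E]
  [MeasurableSpace E] [BorelSpace E] [Nontrivial E] (μ : Measure E) [μ.IsAddHaarMeasure]

/-- the length -/
noncomputable def q (x : E) : ℝ≥0∞ := ENNReal.ofReal ‖x‖

omit [NormedSpace ℝ E] [FiniteDimensional ℝ E] [Nontrivial E] in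
lemma q_meas : Measurable (q : E → ℝ≥0∞) := by unfold q; fun_prop

omit [NormedSpace ℝ E] [FiniteDimensional ℝ E] [MeasurableSpace E] [BorelSpace E] [Nontrivial E] in
lemma q_top (x : E) : q x ≠ ⊤ := ENNReal.ofReal_ne_top

omit [NormedSpace ℝ E] [FiniteDimensional ℝ E] [MeasurableSpace E] [BorelSpace E] [Nontrivial E] in
lemma q_zero {x : E} (hx : x ≠ 0) : q x ≠ 0 := by unfold q; simpa using hx

omit [FiniteDimensional ℝ E] [MeasurableSpace E] [BorelSpace E] [Nontrivial E] in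
lemma q_smul (r : ℝ) (x : E) : q (r • x) = ENNReal.ofReal |r| * q x := by
  unfold q; rw [norm_smul, Real.norm_eq_abs, ENNReal.ofReal_mul (abs_nonneg _)]

omit [NormedSpace ℝ E] [FiniteDimensional ℝ E] [MeasurableSpace E] [BorelSpace E] [Nontrivial E] in
lemma q_rpow {x : E} (hx : x ≠ 0) (s : ℝ) : q x ^ s = ENNReal.ofReal (‖x‖ ^ s) := by
  unfold q; rw [ENNReal.ofReal_rpow_of_pos (norm_pos_iff.2 hx)]

lemma fin_rad {f : ℝ → ℝ}
    (hf : IntegrableOn (fun y => y ^ (Module.finrank ℝ E - 1) • f y) (Ioi 0)) :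
    ∫⁻ u : E, ENNReal.ofReal (f ‖u‖) ∂μ < ⊤ :=
  ((integrable_fun_norm_addHaar μ).2 hf).lintegral_lt_top

/-- integrability near zero -/
lemma fin_zero {a : ℝ} (ha : a < Module.finrank ℝ E) :
    ∫⁻ u : E, (Metric.closedBall (0 : E) 3).indicator (fun u => q u ^ (-a)) u ∂μ < ⊤ := by
  have hd : 0 < Module.finrank ℝ E := Module.finrank_pos
  have hf : IntegrableOn (fun y : ℝ => y ^ (Module.finrank ℝ E - 1) •
      ((Iic (3 : ℝ)).indicator (fun r => r ^ (-a)) y)) (Ioi 0) := by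
    have h := (intervalIntegral.intervalIntegrable_rpow' (a := 0) (b := 3)
      (r := (Module.finrank ℝ E : ℝ) - 1 - a) (by linarith)).1
    have h2 : IntegrableOn (fun y : ℝ => (Ioc (0 : ℝ) 3).indicator
        (fun y => y ^ ((Module.finrank ℝ E : ℝ) - 1 - a)) y) (Ioi 0) :=
      ((integrable_indicator_iff measurableSet_Ioc).2 h).integrableOn
    refine h2.congr_fun ?_ measurableSet_Ioi
    intro y hy
    have hy0 : 0 < y := hy
    by_cases hy3 : y ≤ 3
    · have h3 : y ∈ Ioc (0 : ℝ) 3 := ⟨hy0, hy3⟩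
      have h4 : y ∈ Iic (3 : ℝ) := hy3
      simp only [indicator_of_mem h3, indicator_of_mem h4, smul_eq_mul]
      rw [← Real.rpow_natCast, ← Real.rpow_add hy0, Nat.cast_sub hd, Nat.cast_one]
      congr 1
    · have h3 : y ∉ Ioc (0 : ℝ) 3 := fun h => hy3 h.2
      have h4 : y ∉ Iic (3 : ℝ) := hy3
      simp only [indicator_of_notMem h3, indicator_of_notMem h4, smul_zero]
  refine lt_of_le_of_lt ?_ (fin_rad μ hf)
  have hne : ∀ᵐ u ∂μ, u ≠ (0 : E) := Measure.ae_ne μ 0
  refine lintegral_mono_ae ?_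
  filter_upwards [hne] with u hu
  by_cases hm : u ∈ Metric.closedBall (0 : E) 3
  · have h4 : ‖u‖ ∈ Iic (3 : ℝ) := by simpa using hm
    rw [indicator_of_mem hm, indicator_of_mem h4, q_rpow hu]
  · rw [indicator_of_notMem hm]; exact zero_le

/-- integrability at infinity -/
lemma fin_inf {c : ℝ} (hc : Module.finrank ℝ E < c) :
    ∫⁻ u : E, {u : E | 2 ≤ ‖u‖}.indicator (fun u => q u ^ (-c)) u ∂μ < ⊤ := by
  have hd : 0 < Module.finrank ℝ E := Module.finrank_pos
  have hf : IntegrableOn (fun y : ℝ => y ^ (Module.finrank ℝ E - 1) •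
      ((Ioi (1 : ℝ)).indicator (fun r => r ^ (-c)) y)) (Ioi 0) := by
    have h := integrableOn_Ioi_rpow_of_lt (a := (Module.finrank ℝ E : ℝ) - 1 - c) (c := 1)
      (by linarith) one_pos
    have h2 : IntegrableOn (fun y : ℝ => (Ioi (1 : ℝ)).indicator
        (fun y => y ^ ((Module.finrank ℝ E : ℝ) - 1 - c)) y) (Ioi 0) :=
      ((integrable_indicator_iff measurableSet_Ioi).2 h).integrableOn
    refine h2.congr_fun ?_ measurableSet_Ioi
    intro y hy
    have hy0 : 0 < y := hy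
    by_cases hy3 : y ∈ Ioi (1 : ℝ)
    · simp only [indicator_of_mem hy3, smul_eq_mul]
      rw [← Real.rpow_natCast, ← Real.rpow_add hy0, Nat.cast_sub hd, Nat.cast_one]
      congr 1
    · simp only [indicator_of_notMem hy3, smul_zero]
  refine lt_of_le_of_lt ?_ (fin_rad μ hf)
  refine lintegral_mono fun u => ?_
  by_cases hm : u ∈ {u : E | 2 ≤ ‖u‖}
  · have hm' : 2 ≤ ‖u‖ := hm
    have hu : u ≠ 0 := by
      intro h; rw [h, norm_zero] at hm'; linarith
    have h4 : ‖u‖ ∈ Ioi (1 : ℝ) := mem_Ioi.2 (by linarith)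
    rw [indicator_of_mem hm, indicator_of_mem h4, q_rpow hu]
  · rw [indicator_of_notMem hm]; exact zero_le

omit [NormedSpace ℝ E] [FiniteDimensional ℝ E] [MeasurableSpace E] [BorelSpace E] [Nontrivial E] in
/-- a bound for small values -/
lemma q_half {x : E} {s : ℝ} (hs0 : 0 < s) (hx : 1 / 2 ≤ ‖x‖) :
    q x ^ (-s) ≤ ENNReal.ofReal (2 ^ s) := by
  have hx0 : x ≠ 0 := by intro h; rw [h, norm_zero] at hx; linarith
  rw [q_rpow hx0]
  refine ENNReal.ofReal_le_ofReal ?_
  calc ‖x‖ ^ (-s) ≤ (1 / 2 : ℝ) ^ (-s) :=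
        Real.rpow_le_rpow_of_nonpos (by norm_num) hx (by linarith)
    _ = 2 ^ s := by
        rw [Real.rpow_neg (by norm_num), one_div, Real.inv_rpow (by norm_num), inv_inv]

/-- the basic integral is bounded on the unit sphere -/
lemma fin_one {a b : ℝ} (ha : 0 < a) (ha1 : a < Module.finrank ℝ E) (hb : 0 < b)
    (hb1 : b < Module.finrank ℝ E) (hab : Module.finrank ℝ E < a + b) :
    ∃ c : ℝ, 0 < c ∧ ∀ ω : E, ‖ω‖ = 1 →
      ∫⁻ u : E, q u ^ (-a) * q (ω - u) ^ (-b) ∂μ ≤ ENNReal.ofReal c := by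
  set G1 : E → ℝ≥0∞ := (Metric.closedBall (0 : E) 3).indicator (fun u => q u ^ (-a)) with hG1
  set G2 : E → ℝ≥0∞ := (Metric.closedBall (0 : E) 3).indicator (fun u => q u ^ (-b)) with hG2
  set G3 : E → ℝ≥0∞ := {u : E | 2 ≤ ‖u‖}.indicator (fun u => q u ^ (-(a + b))) with hG3
  have hms : MeasurableSet {u : E | 2 ≤ ‖u‖} := measurableSet_le measurable_const (by fun_prop)
  have m1 : Measurable G1 := (q_meas.pow_const _).indicator measurableSet_closedBall
  have m2 : Measurable G2 := (q_meas.pow_const _).indicator measurableSet_closedBall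
  have m3 : Measurable G3 := (q_meas.pow_const _).indicator hms
  set K : ℝ≥0∞ := ENNReal.ofReal (2 ^ (a + b)) with hK
  have hKa : ENNReal.ofReal (2 ^ a) ≤ K :=
    ENNReal.ofReal_le_ofReal (Real.rpow_le_rpow_of_exponent_le (by norm_num) (by linarith))
  have hKb : ENNReal.ofReal (2 ^ b) ≤ K :=
    ENNReal.ofReal_le_ofReal (Real.rpow_le_rpow_of_exponent_le (by norm_num) (by linarith))
  have key : ∀ ω : E, ‖ω‖ = 1 → ∀ u : E, q u ^ (-a) * q (ω - u) ^ (-b) ≤
      K * (G1 u + (G2 (ω - u) + G3 u)) := by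
    intro ω hω u
    by_cases h2 : 2 ≤ ‖u‖
    · have hu : u ≠ 0 := by intro h; rw [h, norm_zero] at h2; linarith
      have h3 : ‖u‖ / 2 ≤ ‖ω - u‖ := by
        have : ‖u‖ ≤ ‖ω - u‖ + ‖ω‖ := by
          calc ‖u‖ = ‖ω - (ω - u)‖ := by congr 1; abel
            _ ≤ ‖ω‖ + ‖ω - u‖ := norm_sub_le _ _
            _ = _ := add_comm _ _
        rw [hω] at this
        linarith
      have hu1 : ω - u ≠ 0 := by
        intro h; rw [h, norm_zero] at h3; linarith
      have h4 : q (ω - u) ^ (-b) ≤ K * q u ^ (-b) := by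
        refine le_trans ?_ (mul_le_mul_left hKb _)
        rw [q_rpow hu1, q_rpow hu, ← ENNReal.ofReal_mul (by positivity)]
        refine ENNReal.ofReal_le_ofReal ?_
        calc ‖ω - u‖ ^ (-b) ≤ (‖u‖ / 2) ^ (-b) :=
              Real.rpow_le_rpow_of_nonpos (by positivity) h3 (by linarith)
          _ = 2 ^ b * ‖u‖ ^ (-b) := by
              rw [Real.div_rpow (norm_nonneg _) (by norm_num),
                Real.rpow_neg (by norm_num : (0:ℝ) ≤ 2), div_inv_eq_mul, mul_comm]
      have h6 : G3 u = q u ^ (-(a + b)) := by rw [hG3, indicator_of_mem (by exact h2)]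
      calc q u ^ (-a) * q (ω - u) ^ (-b) ≤ q u ^ (-a) * (K * q u ^ (-b)) := by gcongr
        _ = K * (q u ^ (-a) * q u ^ (-b)) := by ring
        _ = K * G3 u := by
            rw [h6, ← ENNReal.rpow_add _ _ (q_zero hu) (q_top u)]
            congr 2; ring
        _ ≤ K * (G1 u + (G2 (ω - u) + G3 u)) := by
            gcongr
            exact le_add_self.trans le_add_self
    · rw [not_le] at h2
      by_cases h3 : 1 / 2 ≤ ‖u‖
      · have hmm : ω - u ∈ Metric.closedBall (0 : E) 3 := by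
          rw [mem_closedBall_zero_iff]
          have := norm_sub_le ω u
          rw [hω] at this
          linarith
        have h6 : G2 (ω - u) = q (ω - u) ^ (-b) := by rw [hG2, indicator_of_mem hmm]
        calc q u ^ (-a) * q (ω - u) ^ (-b) ≤ K * q (ω - u) ^ (-b) := by
              gcongr; exact (q_half ha h3).trans hKa
          _ = K * G2 (ω - u) := by rw [h6]
          _ ≤ K * (G1 u + (G2 (ω - u) + G3 u)) := by
              gcongr
              exact le_self_add.trans le_add_self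
      · rw [not_le] at h3
        have hmm : u ∈ Metric.closedBall (0 : E) 3 := by
          rw [mem_closedBall_zero_iff]
          linarith
        have h6 : G1 u = q u ^ (-a) := by rw [hG1, indicator_of_mem hmm]
        have h7 : 1 / 2 ≤ ‖ω - u‖ := by
          have := norm_sub_norm_le ω u
          rw [hω] at this
          linarith
        calc q u ^ (-a) * q (ω - u) ^ (-b) ≤ q u ^ (-a) * K := by
              gcongr; exact (q_half hb h7).trans hKb
          _ = K * G1 u := by rw [h6, mul_comm]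
          _ ≤ K * (G1 u + (G2 (ω - u) + G3 u)) := by
              gcongr
              exact le_self_add
  set J : ℝ≥0∞ := K * ((∫⁻ u, G1 u ∂μ) + ((∫⁻ u, G2 u ∂μ) + ∫⁻ u, G3 u ∂μ)) with hJ
  have hJt : J < ⊤ := ENNReal.mul_lt_top ENNReal.ofReal_lt_top
    (ENNReal.add_lt_top.2 ⟨fin_zero μ ha1, ENNReal.add_lt_top.2 ⟨fin_zero μ hb1, fin_inf μ hab⟩⟩)
  refine ⟨J.toReal + 1, by positivity, fun ω hω => ?_⟩
  have hJc : J ≤ ENNReal.ofReal (J.toReal + 1) := by
    rw [← ENNReal.ofReal_toReal hJt.ne]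
    refine ENNReal.ofReal_le_ofReal ?_
    rw [ENNReal.toReal_ofReal ENNReal.toReal_nonneg]
    linarith
  refine le_trans ?_ hJc
  have hI2 : ∫⁻ u : E, G2 (ω - u) ∂μ = ∫⁻ u, G2 u ∂μ :=
    lintegral_sub_left_eq_self (μ := μ) G2 ω
  have m2' : Measurable (fun u => G2 (ω - u)) := m2.comp (measurable_const.sub measurable_id)
  calc ∫⁻ u : E, q u ^ (-a) * q (ω - u) ^ (-b) ∂μ
      ≤ ∫⁻ u : E, K * (G1 u + (G2 (ω - u) + G3 u)) ∂μ := lintegral_mono (key ω hω)
    _ = K * ((∫⁻ u, G1 u ∂μ) + ((∫⁻ u, G2 (ω - u) ∂μ) + ∫⁻ u, G3 u ∂μ)) := by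
        rw [lintegral_const_mul' _ _ ENNReal.ofReal_ne_top, lintegral_add_left m1,
          lintegral_add_right _ m3]
    _ = J := by rw [hI2]

omit [Nontrivial E] in
/-- scaling -/
lemma lint_scale {r : ℝ} (hr : 0 < r) (f : E → ℝ≥0∞) (hf : Measurable f) :
    ∫⁻ x, f x ∂μ = ENNReal.ofReal (r ^ Module.finrank ℝ E) * ∫⁻ u, f (r • u) ∂μ := by
  have h1 : ∫⁻ u, f (r • u) ∂μ = ∫⁻ x, f x ∂(Measure.map (r • ·) μ) := by
    rw [lintegral_map hf (measurable_const_smul r)]
  rw [h1, Measure.map_addHaar_smul μ hr.ne', lintegral_smul_measure, smul_eq_mul, ← mul_assoc,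
    abs_of_pos (by positivity), ← ENNReal.ofReal_mul (by positivity),
    mul_inv_cancel₀ (by positivity), ENNReal.ofReal_one, one_mul]

/-- the kernel estimate -/
lemma kern {a b : ℝ} (ha : 0 < a) (ha1 : a < Module.finrank ℝ E) (hb : 0 < b)
    (hb1 : b < Module.finrank ℝ E) (hab : Module.finrank ℝ E < a + b) :
    ∃ c : ℝ, 0 < c ∧ ∀ z : E, ∫⁻ x : E, q x ^ (-a) * q (z - x) ^ (-b) ∂μ ≤
      ENNReal.ofReal c * q z ^ ((Module.finrank ℝ E : ℝ) - a - b) := by
  obtain ⟨c, hc, hbd⟩ := fin_one μ ha ha1 hb hb1 hab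
  refine ⟨c, hc, fun z => ?_⟩
  by_cases hz : z = 0
  · have h1 : q z ^ ((Module.finrank ℝ E : ℝ) - a - b) = ⊤ := by
      rw [hz]
      unfold q
      rw [norm_zero, ENNReal.ofReal_zero, ENNReal.zero_rpow_of_neg (by linarith)]
    rw [h1, ENNReal.mul_top]
    · exact le_top
    · rw [Ne, ENNReal.ofReal_eq_zero, not_le]; exact hc
  · have hr : 0 < ‖z‖ := norm_pos_iff.2 hz
    have hm : Measurable (fun x : E => q x ^ (-a) * q (z - x) ^ (-b)) :=
      (q_meas.pow_const _).mul ((q_meas.comp (measurable_const.sub measurable_id)).pow_const _)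
    rw [lint_scale μ hr _ hm]
    have h0 : ENNReal.ofReal |‖z‖| = q z := by rw [abs_of_pos hr]; rfl
    have h2 : ∀ u : E, q (‖z‖ • u) ^ (-a) * q (z - ‖z‖ • u) ^ (-b) =
        (q z ^ (-a) * q z ^ (-b)) * (q u ^ (-a) * q (‖z‖⁻¹ • z - u) ^ (-b)) := by
      intro u
      have : z - ‖z‖ • u = ‖z‖ • (‖z‖⁻¹ • z - u) := by
        rw [smul_sub, smul_smul, mul_inv_cancel₀ hr.ne', one_smul]
      rw [this, q_smul, q_smul, h0, ENNReal.mul_rpow_of_ne_top (q_top _) (q_top _),
        ENNReal.mul_rpow_of_ne_top (q_top _) (q_top _)]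
      ring
    rw [lintegral_congr h2, lintegral_const_mul]
    · have hω : ‖‖z‖⁻¹ • z‖ = 1 := by
        rw [norm_smul, norm_inv, norm_norm, inv_mul_cancel₀ hr.ne']
      have h3 := hbd _ hω
      have h4 : ENNReal.ofReal (‖z‖ ^ Module.finrank ℝ E) * (q z ^ (-a) * q z ^ (-b)) =
          q z ^ ((Module.finrank ℝ E : ℝ) - a - b) := by
        have h5 : ENNReal.ofReal (‖z‖ ^ Module.finrank ℝ E) = q z ^ (Module.finrank ℝ E : ℝ) := by
          rw [ENNReal.rpow_natCast, ENNReal.ofReal_pow (norm_nonneg _)]; rfl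
        rw [h5, ← ENNReal.rpow_add _ _ (q_zero hz) (q_top z),
          ← ENNReal.rpow_add _ _ (q_zero hz) (q_top z)]
        congr 1; ring
      rw [← mul_assoc, h4, mul_comm]
      gcongr
    · exact (q_meas.pow_const _).mul
        ((q_meas.comp (measurable_const.sub measurable_id)).pow_const _)

end kernel

end Pool.Agent.TH883.E4R
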